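import Mathlib

/-!
# Augmentations of circle packings which are not sphere packable in any prescribed dimension

The chain of circles between two tangent circles, together with one more circle tangent to both, has
an augmentation which contains the join of a triangle and a path. The balls tangent to three mutually
tangent balls of `ℝᵈ` correspond to points of norm `2` at mutual distances at least `2`, so there are
at most `5 ^ (d + 1)` of them.
-/

set_option autoImplicit false

open Metric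

namespace Pool.Agent.Results.MP_ffcab7_co.EveryDimension

/-- Closed balls in `ℝ^d` with pairwise disjoint interiors, touching exactly along edges of `G`
(for `d = 2`: a circle packing of `G`). -/
def IsPacking {V : Type} (d : ℕ) (G : SimpleGraph V) (c : V → EuclideanSpace ℝ (Fin d))
    (r : V → ℝ) : Prop :=
  (∀ v, 0 < r v) ∧ ∀ u v, u ≠ v → Disjoint (ball (c u) (r u)) (ball (c v) (r v)) ∧
    (G.Adj u v ↔ (closedBall (c u) (r u) ∩ closedBall (c v) (r v)).Nonempty)

/-- The graph is sphere packable in `ℝ^d`. -/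
def SpherePackable {V : Type} (d : ℕ) (G : SimpleGraph V) : Prop :=
  ∃ (c : V → EuclideanSpace ℝ (Fin d)) (r : V → ℝ), IsPacking d G c r

/-- A height function. -/
def IsHeight {V : Type} (G : SimpleGraph V) (f : V → ℤ) : Prop :=
  ∀ u v, G.Adj u v → |f u - f v| ≤ 1

/-- `nb v` is a nearest vertex of lower height, whenever a lower vertex exists. -/
def IsNearest {V : Type} (f : V → ℤ) (c : V → EuclideanSpace ℝ (Fin 2)) (nb : V → V) : Prop :=
  ∀ v, (∃ u, f u < f v) → f (nb v) < f v ∧ ∀ u, f u < f v → dist (c (nb v)) (c v) ≤ dist (c u) (c v)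

/-- The augmented graph: every vertex above some other vertex is joined to its nearest lower one. -/
def aug {V : Type} (G : SimpleGraph V) (f : V → ℤ) (nb : V → V) : SimpleGraph V :=
  G ⊔ SimpleGraph.fromRel fun v u => (∃ w, f w < f v) ∧ u = nb v

theorem pack_iff {V : Type} (d : ℕ) (G : SimpleGraph V) (c : V → EuclideanSpace ℝ (Fin d))
    (r : V → ℝ) : IsPacking d G c r ↔ (∀ v, 0 < r v) ∧ ∀ u v, u ≠ v →
      (r u + r v) ^ 2 ≤ dist (c u) (c v) ^ 2 ∧ (G.Adj u v ↔ dist (c u) (c v) ^ 2 ≤ (r u + r v) ^ 2) := by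
  refine and_congr_right fun hr => forall₃_congr fun u v _ => ?_
  have h1 := hr u
  have h2 := hr v
  rw [disjoint_ball_ball_iff h1 h2, ← Set.not_disjoint_iff_nonempty_inter,
    disjoint_closedBall_closedBall_iff h1.le h2.le, not_lt,
    sq_le_sq₀ (by positivity) dist_nonneg, sq_le_sq₀ dist_nonneg (by positivity)]

/-! ### The bound -/

section Bound

variable {E : Type} [NormedAddCommGroup E] [InnerProductSpace ℝ E]

/-- The Lorentz form. -/
noncomputable def Bf (p q : E × ℝ × ℝ) : ℝ := inner ℝ p.1 q.1 - (p.2.1 * q.2.2 + p.2.2 * q.2.1) / 2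

theorem Bf_comm (p q : E × ℝ × ℝ) : Bf p q = Bf q p := by
  unfold Bf
  rw [real_inner_comm]
  ring

theorem Bf_add_left (p q s : E × ℝ × ℝ) : Bf (p + q) s = Bf p s + Bf q s := by
  simp only [Bf, Prod.fst_add, Prod.snd_add, inner_add_left]
  ring

theorem Bf_sub_left (p q s : E × ℝ × ℝ) : Bf (p - q) s = Bf p s - Bf q s := by
  simp only [Bf, Prod.fst_sub, Prod.snd_sub, inner_sub_left]
  ring

theorem Bf_add_right (p q s : E × ℝ × ℝ) : Bf s (p + q) = Bf s p + Bf s q := by
  rw [Bf_comm, Bf_add_left, Bf_comm p, Bf_comm q]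

theorem Bf_sub_right (p q s : E × ℝ × ℝ) : Bf s (p - q) = Bf s p - Bf s q := by
  rw [Bf_comm, Bf_sub_left, Bf_comm p, Bf_comm q]

/-- The Euclidean image of the orthogonal complement of the time-like vector `S`. -/
noncomputable def phi (S p : E × ℝ × ℝ) : WithLp 2 (E × ℝ) :=
  WithLp.toLp 2 (p.1 - (p.2.1 / S.2.1) • S.1, Real.sqrt 3 * (p.2.1 / S.2.1))

theorem phi_sub (S p q : E × ℝ × ℝ) : phi S (p - q) = phi S p - phi S q := by
  unfold phi
  rw [← WithLp.toLp_sub]
  congr 1
  ext1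
  · simp only [Prod.fst_sub, Prod.snd_sub, sub_div, sub_smul]
    abel
  · simp only [Prod.snd_sub, Prod.fst_sub]
    ring

theorem norm_phi_sq (S p : E × ℝ × ℝ) (hS : Bf S S = -3) (hT : 0 < S.2.1) (h : Bf p S = 0) :
    ‖phi S p‖ ^ 2 = Bf p p := by
  obtain ⟨X, T, U⟩ := S
  obtain ⟨x, t, u⟩ := p
  simp only at hT
  have h3 : Real.sqrt 3 ^ 2 = 3 := Real.sq_sqrt (by norm_num)
  have hT' : T ≠ 0 := hT.ne'
  rw [WithLp.prod_norm_sq_eq_of_L2]
  simp only [phi, WithLp.toLp_fst, WithLp.toLp_snd, Real.norm_eq_abs, sq_abs, mul_pow, h3]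
  rw [norm_sub_sq_real, norm_smul, mul_pow, Real.norm_eq_abs, sq_abs, inner_smul_right,
    ← real_inner_self_eq_norm_sq, ← real_inner_self_eq_norm_sq]
  simp only [Bf] at hS h ⊢
  have e1 : inner ℝ X X = T * U - 3 := by linarith
  have e2 : inner ℝ x X = (t * U + u * T) / 2 := by linarith
  rw [e1, e2]
  field_simp
  ring

/-- The Lorentz vector of a ball. -/
noncomputable def lift (c : E) (r : ℝ) : E × ℝ × ℝ := (r⁻¹ • c, r⁻¹, (‖c‖ ^ 2 - r ^ 2) / r)

theorem Bf_lift (c c' : E) (r r' : ℝ) (h : 0 < r) (h' : 0 < r') :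
    Bf (lift c r) (lift c' r') = ((r + r') ^ 2 - dist c c' ^ 2) / (2 * r * r') - 1 := by
  simp only [Bf, lift, inner_smul_left, inner_smul_right, dist_eq_norm]
  rw [norm_sub_sq_real]
  simp only [conj_trivial]
  field_simp
  ring

end Bound

/-- At most `5 ^ (d + 1)` balls of a packing in `ℝᵈ` are tangent to three mutually tangent balls. -/
theorem card_le {V : Type} {d : ℕ} {G : SimpleGraph V} {c : V → EuclideanSpace ℝ (Fin d)}
    {r : V → ℝ} (h : IsPacking d G c r) (a : Fin 3 → V) (ha : ∀ i j, i ≠ j → G.Adj (a i) (a j))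
    (s : Finset V) (hs : ∀ v ∈ s, ∀ i, G.Adj v (a i)) : s.card ≤ 5 ^ (d + 1) := by
  classical
  rw [pack_iff] at h
  obtain ⟨hr, h⟩ := h
  set L : V → EuclideanSpace ℝ (Fin d) × ℝ × ℝ := fun v => lift (c v) (r v) with hL
  have self : ∀ v, Bf (L v) (L v) = 1 := fun v => by
    have := hr v
    rw [hL, Bf_lift _ _ _ _ this this, dist_self]
    field_simp
    ring
  have adj : ∀ u v, G.Adj u v → Bf (L u) (L v) = -1 := fun u v huv => by
    rw [hL, Bf_lift _ _ _ _ (hr u) (hr v), le_antisymm ((h u v huv.ne).2.1 huv) (h u v huv.ne).1]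
    simp
  have ne : ∀ u v, u ≠ v → Bf (L u) (L v) ≤ -1 := fun u v huv => by
    have h1 := hr u
    have h2 := hr v
    rw [hL, Bf_lift _ _ _ _ h1 h2]
    have : ((r u + r v) ^ 2 - dist (c u) (c v) ^ 2) / (2 * r u * r v) ≤ 0 :=
      div_nonpos_of_nonpos_of_nonneg (by linarith [(h u v huv).1]) (by positivity)
    linarith
  set S := L (a 0) + L (a 1) + L (a 2) with hSdef
  have a01 := adj _ _ (ha 0 1 (by decide))
  have a02 := adj _ _ (ha 0 2 (by decide))
  have a12 := adj _ _ (ha 1 2 (by decide))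
  have hS : Bf S S = -3 := by
    simp only [hSdef, Bf_add_left, Bf_add_right, self, a01, a02, a12, Bf_comm (L (a 1)) (L (a 0)),
      Bf_comm (L (a 2)) (L (a 0)), Bf_comm (L (a 2)) (L (a 1))]
    norm_num
  have hT : 0 < S.2.1 := by
    have h0 := hr (a 0)
    have h1 := hr (a 1)
    have h2 := hr (a 2)
    show 0 < (r (a 0))⁻¹ + (r (a 1))⁻¹ + (r (a 2))⁻¹
    positivity
  have hvS : ∀ v ∈ s, Bf (L v) S = -3 := fun v hv => by
    simp only [hSdef, Bf_add_right, adj _ _ (hs v hv 0), adj _ _ (hs v hv 1), adj _ _ (hs v hv 2)]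
    norm_num
  set f : V → WithLp 2 (EuclideanSpace ℝ (Fin d) × ℝ) := fun v => phi S (L v - S) with hf
  have hdist : ∀ u ∈ s, ∀ v ∈ s, u ≠ v → 2 ≤ ‖f u - f v‖ := fun u hu v hv huv => by
    have e : f u - f v = phi S (L u - L v) := by
      rw [hf, ← phi_sub]
      congr 1
      abel
    have h0 : Bf (L u - L v) S = 0 := by rw [Bf_sub_left, hvS u hu, hvS v hv, sub_self]
    have h1 := norm_phi_sq S (L u - L v) hS hT h0
    rw [Bf_sub_left, Bf_sub_right, Bf_sub_right, self, self, Bf_comm (L v) (L u)] at h1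
    have h2 := ne u v huv
    rw [e]
    nlinarith [norm_nonneg (phi S (L u - L v))]
  have hnorm : ∀ u ∈ s, ‖f u‖ ≤ 2 := fun u hu => by
    have h0 : Bf (L u - S) S = 0 := by rw [Bf_sub_left, hvS u hu, hS, sub_self]
    have h1 := norm_phi_sq S (L u - S) hS hT h0
    rw [Bf_sub_left, Bf_sub_right, Bf_sub_right, self, Bf_comm S (L u), hvS u hu, hS] at h1
    have e : ‖f u‖ ^ 2 = 4 := by rw [hf]; rw [h1]; norm_num
    nlinarith [norm_nonneg (f u)]
  have hinj : Set.InjOn f s := fun u hu v hv huv => by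
    by_contra hne
    have := hdist u hu v hv hne
    rw [huv, sub_self, norm_zero] at this
    linarith
  have hcard := Besicovitch.card_le_of_separated (s.image f) (by
      intro x hx
      obtain ⟨u, hu, rfl⟩ := Finset.mem_image.1 hx
      exact hnorm u hu) (by
      intro x hx y hy hxy
      obtain ⟨u, hu, rfl⟩ := Finset.mem_image.1 hx
      obtain ⟨v, hv, rfl⟩ := Finset.mem_image.1 hy
      have : u ≠ v := fun h => hxy (by rw [h])
      linarith [hdist u hu v hv this])
  rw [Finset.card_image_of_injOn hinj] at hcard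
  have hfin : Module.finrank ℝ (WithLp 2 (EuclideanSpace ℝ (Fin d) × ℝ)) = d + 1 := by
    rw [(WithLp.linearEquiv 2 ℝ (EuclideanSpace ℝ (Fin d) × ℝ)).finrank_eq, Module.finrank_prod]
    simp
  rwa [hfin] at hcard

/-! ### The chain -/

/-- first coordinates of the centres -/
def cx : ℕ → ℝ
  | 0 => 0
  | 1 => -1
  | 2 => 1
  | _ + 3 => 0

/-- second coordinates of the centres -/
noncomputable def cy : ℕ → ℝ
  | 0 => -3 / 4
  | 1 => 0
  | 2 => 0
  | k + 3 => (1 / ((k : ℝ) + 1) + 1 / ((k : ℝ) + 2)) / 2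

/-- radii -/
noncomputable def rr : ℕ → ℝ
  | 0 => 1 / 4
  | 1 => 1
  | 2 => 1
  | k + 3 => (1 / ((k : ℝ) + 1) - 1 / ((k : ℝ) + 2)) / 2

/-- adjacency -/
def adjN (u v : ℕ) : Prop :=
  u ≠ v ∧ (u = 1 ∨ u = 2 ∨ v = 1 ∨ v = 2 ∨ (3 ≤ u ∧ 3 ≤ v ∧ (u + 1 = v ∨ v + 1 = u)))

theorem adjN_comm (u v : ℕ) : adjN u v ↔ adjN v u := by unfold adjN; omega

theorem rr_pos (v : ℕ) : 0 < rr v := by
  match v with
  | 0 => norm_num [rr]
  | 1 => norm_num [rr]
  | 2 => norm_num [rr]
  | k + 3 =>
    simp only [rr]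
    have : 1 / ((k : ℝ) + 2) < 1 / ((k : ℝ) + 1) :=
      one_div_lt_one_div_of_lt (by positivity) (by linarith)
    linarith

theorem low (k : ℕ) : cy (k + 3) - rr (k + 3) = 1 / ((k : ℝ) + 2) := by
  simp only [cy, rr]; ring

theorem high (k : ℕ) : cy (k + 3) + rr (k + 3) = 1 / ((k : ℝ) + 1) := by
  simp only [cy, rr]; ring

theorem prodeq (k : ℕ) : cy (k + 3) ^ 2 = 2 * rr (k + 3) + rr (k + 3) ^ 2 := by
  simp only [cy, rr]
  field_simp
  ring

theorem chain_lt (u v : ℕ) (huv : u < v) :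
    (rr u + rr v) ^ 2 ≤ (cx u - cx v) ^ 2 + (cy u - cy v) ^ 2 ∧
    (adjN u v ↔ (cx u - cx v) ^ 2 + (cy u - cy v) ^ 2 ≤ (rr u + rr v) ^ 2) := by
  match u, v, huv with
  | 0, 1, _ => norm_num [rr, cx, cy, adjN]
  | 0, 2, _ => norm_num [rr, cx, cy, adjN]
  | 0, k + 3, _ =>
    have h1 := low k
    have h2 : 0 < 1 / ((k : ℝ) + 2) := by positivity
    have h3 := rr_pos (k + 3)
    have h4 : (rr 0 + rr (k + 3)) ^ 2 < (cx 0 - cx (k + 3)) ^ 2 + (cy 0 - cy (k + 3)) ^ 2 := by
      simp only [show rr 0 = 1 / 4 from rfl, show cx 0 = 0 from rfl, show cy 0 = -3 / 4 from rfl,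
        show cx (k + 3) = 0 from rfl]
      nlinarith
    refine ⟨h4.le, ⟨fun h => ?_, fun h => absurd h (not_le.2 h4)⟩⟩
    exfalso
    unfold adjN at h
    omega
  | 1, 2, _ => norm_num [rr, cx, cy, adjN]
  | 1, k + 3, _ =>
    have h1 := prodeq k
    have h4 : (rr 1 + rr (k + 3)) ^ 2 = (cx 1 - cx (k + 3)) ^ 2 + (cy 1 - cy (k + 3)) ^ 2 := by
      simp only [show rr 1 = 1 from rfl, show cx 1 = -1 from rfl, show cy 1 = 0 from rfl,
        show cx (k + 3) = 0 from rfl]
      linear_combination (-1) * h1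
    refine ⟨h4.le, ⟨fun _ => h4.ge, fun _ => ?_⟩⟩
    unfold adjN
    omega
  | 2, k + 3, _ =>
    have h1 := prodeq k
    have h4 : (rr 2 + rr (k + 3)) ^ 2 = (cx 2 - cx (k + 3)) ^ 2 + (cy 2 - cy (k + 3)) ^ 2 := by
      simp only [show rr 2 = 1 from rfl, show cx 2 = 1 from rfl, show cy 2 = 0 from rfl,
        show cx (k + 3) = 0 from rfl]
      linear_combination (-1) * h1
    refine ⟨h4.le, ⟨fun _ => h4.ge, fun _ => ?_⟩⟩
    unfold adjN
    omega
  | j + 3, k + 3, huv =>
    have hjk : j < k := by omega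
    have h1 := low j
    have h2 := high k
    have h3 := rr_pos (j + 3)
    have h5 := rr_pos (k + 3)
    have hx : (cx (j + 3) - cx (k + 3)) ^ 2 = 0 := by
      simp only [show cx (j + 3) = 0 from rfl, show cx (k + 3) = 0 from rfl]; ring
    rw [hx, zero_add]
    have hle : 1 / ((k : ℝ) + 1) ≤ 1 / ((j : ℝ) + 2) := by
      apply one_div_le_one_div_of_le (by positivity)
      have : (j : ℝ) + 1 ≤ k := by exact_mod_cast hjk
      linarith
    refine ⟨?_, ?_, ?_⟩
    · apply pow_le_pow_left₀ (by positivity)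
      linarith
    · intro h
      have h6 : k = j + 1 := by unfold adjN at h; omega
      have h7 : 1 / ((k : ℝ) + 1) = 1 / ((j : ℝ) + 2) := by
        rw [h6]; push_cast; ring_nf
      apply pow_le_pow_left₀ (by linarith)
      linarith
    · intro h
      have h8 : cy (j + 3) - cy (k + 3) ≤ rr (j + 3) + rr (k + 3) := by
        by_contra hc
        push Not at hc
        have := pow_lt_pow_left₀ hc (by positivity) two_ne_zero
        linarith
      have h9 : 1 / ((j : ℝ) + 2) ≤ 1 / ((k : ℝ) + 1) := by linarith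
      have h10 : (k : ℝ) + 1 ≤ j + 2 := by
        rwa [one_div_le_one_div (by positivity) (by positivity)] at h9
      have h11 : k ≤ j + 1 := by
        have : (k : ℝ) ≤ ((j + 1 : ℕ) : ℝ) := by push_cast; linarith
        exact_mod_cast this
      unfold adjN
      omega

theorem chain (u v : ℕ) (huv : u ≠ v) :
    (rr u + rr v) ^ 2 ≤ (cx u - cx v) ^ 2 + (cy u - cy v) ^ 2 ∧
    (adjN u v ↔ (cx u - cx v) ^ 2 + (cy u - cy v) ^ 2 ≤ (rr u + rr v) ^ 2) := by
  rcases lt_or_gt_of_ne huv with h | h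
  · exact chain_lt u v h
  · have := chain_lt v u h
    rw [adjN_comm, add_comm (rr u), sub_sq_comm (cx u), sub_sq_comm (cy u)]
    exact this

/-- The graph on a set `V` of indices. -/
def GV {V : Type} (e : V → ℕ) : SimpleGraph V where
  Adj u v := adjN (e u) (e v)
  symm := ⟨fun _ _ h => (adjN_comm _ _).1 h⟩
  loopless := ⟨fun _ h => h.1 rfl⟩

/-- The construction, on a set `V` of indices which contains `0`, `1` and `2`. -/
theorem construct {V : Type} (e : V → ℕ) (he : Function.Injective e) (v₀ v₁ v₂ : V)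
    (h0 : e v₀ = 0) (h1 : e v₁ = 1) (h2 : e v₂ = 2) :
    ∃ (G : SimpleGraph V) (f : V → ℤ), G.Connected ∧ IsHeight G f ∧
      (∃ (c : V → EuclideanSpace ℝ (Fin 2)) (r : V → ℝ) (nb : V → V),
        IsPacking 2 G c r ∧ IsNearest f c nb) ∧
      ∀ (c : V → EuclideanSpace ℝ (Fin 2)) (nb : V → V), IsNearest f c nb →
        ∀ d : ℕ, SpherePackable d (aug G f nb) →
          ∀ s : Finset V, (∀ v ∈ s, v ≠ v₀ ∧ v ≠ v₁ ∧ v ≠ v₂) → s.card ≤ 5 ^ (d + 1) := by
  classical
  have k : ∀ u v : V, (if u = v₀ then (0 : ℤ) else 1) < (if v = v₀ then 0 else 1) →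
      u = v₀ ∧ v ≠ v₀ := by
    intro u v
    split_ifs <;> simp_all
  refine ⟨GV e, fun v => if v = v₀ then 0 else 1, ?_, ?_,
    ⟨fun v => !₂[cx (e v), cy (e v)], fun v => rr (e v), fun _ => v₀, ?_, ?_⟩, ?_⟩
  · have : ∀ v, (GV e).Reachable v₁ v := fun v => by
      by_cases h : v = v₁
      · rw [h]
      · refine SimpleGraph.Adj.reachable ?_
        show adjN (e v₁) (e v)
        rw [h1]
        refine ⟨fun h3 => h (he (by rw [← h3, h1])), Or.inl rfl⟩
    have : Nonempty V := ⟨v₁⟩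
    exact ⟨fun a b => (‹∀ v, (GV e).Reachable v₁ v› a).symm.trans (‹∀ v, (GV e).Reachable v₁ v› b)⟩
  · intro u v _
    dsimp only
    split_ifs <;> simp
  · rw [pack_iff]
    refine ⟨fun v => rr_pos _, fun u v h => ?_⟩
    rw [EuclideanSpace.dist_sq_eq]
    simp only [Fin.sum_univ_two, Real.dist_eq, sq_abs, Matrix.cons_val_zero, Matrix.cons_val_one]
    exact chain (e u) (e v) (fun h3 => h (he h3))
  · rintro v ⟨w, hw⟩
    refine ⟨by simp [(k w v hw).2], fun u hu => ?_⟩
    rw [(k u v hu).1]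
  · rintro c₂ nb hnb d ⟨c, r, h⟩ s hs
    have n01 : v₀ ≠ v₁ := fun h => by rw [h, h1] at h0; omega
    have n02 : v₀ ≠ v₂ := fun h => by rw [h, h2] at h0; omega
    have n12 : v₁ ≠ v₂ := fun h => by rw [h, h2] at h1; omega
    have A1 : ∀ v, v ≠ v₁ → (GV e).Adj v v₁ := fun v hv => by
      show adjN (e v) (e v₁)
      exact ⟨fun h3 => hv (he h3), by rw [h1]; omega⟩
    have A2 : ∀ v, v ≠ v₂ → (GV e).Adj v v₂ := fun v hv => by
      show adjN (e v) (e v₂)
      exact ⟨fun h3 => hv (he h3), by rw [h2]; omega⟩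
    have B0 : ∀ v, v ≠ v₀ →
        (aug (GV e) (fun v => if v = v₀ then (0 : ℤ) else 1) nb).Adj v v₀ := fun v hv => by
      have hlow : ∃ u, (if u = v₀ then (0 : ℤ) else 1) < (if v = v₀ then 0 else 1) :=
        ⟨v₀, by simp [hv]⟩
      have hb : nb v = v₀ := (k _ _ (hnb v hlow).1).1
      exact Or.inr ⟨hv, Or.inl ⟨hlow, hb.symm⟩⟩
    refine card_le h ![v₀, v₁, v₂] ?_ s ?_
    · intro i j hij
      fin_cases i <;> fin_cases j
      · exact absurd rfl hij
      · exact Or.inl (A1 _ n01)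
      · exact Or.inl (A2 _ n02)
      · exact B0 _ n01.symm
      · exact absurd rfl hij
      · exact Or.inl (A2 _ n12)
      · exact B0 _ n02.symm
      · exact Or.inl (A1 _ n12.symm)
      · exact absurd rfl hij
    · intro v hv i
      obtain ⟨m0, m1, m2⟩ := hs v hv
      fin_cases i
      · exact B0 _ m0
      · exact Or.inl (A1 _ m1)
      · exact Or.inl (A2 _ m2)

/-- `G` and `f` answer Q1 negatively in dimension `d`: `f` is a height function, `G` has a circle
packing in the plane (with a choice of nearest lower vertices), and for every circle packing of `G`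
and every choice of nearest lower vertices the augmented graph is not sphere packable in `ℝᵈ`. -/
def NeverPackable {V : Type} (G : SimpleGraph V) (f : V → ℤ) (d : ℕ) : Prop :=
  G.Connected ∧ IsHeight G f ∧
    (∃ (c : V → EuclideanSpace ℝ (Fin 2)) (r : V → ℝ) (nb : V → V),
      IsPacking 2 G c r ∧ IsNearest f c nb) ∧
    ∀ (c : V → EuclideanSpace ℝ (Fin 2)) (r : V → ℝ) (nb : V → V),
      IsPacking 2 G c r → IsNearest f c nb → ¬ SpherePackable d (aug G f nb)

/-- **Q1 fails in every dimension, for every circle packing.** For every `d` and every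
`n > 5 ^ (d + 1) + 3` there are a connected planar graph `G` on `n` vertices and a height function
such that for every circle packing of `G` and every choice of nearest lower vertices the augmented
graph is not sphere packable in `ℝᵈ`; and there is one countably infinite example for all `d`. -/
theorem result :
    (∀ d n : ℕ, 5 ^ (d + 1) + 3 < n →
      ∃ (G : SimpleGraph (Fin n)) (f : Fin n → ℤ), NeverPackable G f d) ∧
    (∃ (G : SimpleGraph ℕ) (f : ℕ → ℤ), ∀ d : ℕ, NeverPackable G f d) := by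
  constructor
  · intro d n hn
    have g5 : 0 < (5 : ℕ) ^ (d + 1) := by positivity
    have g0 : 0 < n := by omega
    have g1 : 1 < n := by omega
    have g2 : 2 < n := by omega
    obtain ⟨G, f, hG, hf, hc, hd⟩ := construct (V := Fin n) (fun v => v.val)
      Fin.val_injective ⟨0, g0⟩ ⟨1, g1⟩ ⟨2, g2⟩ rfl rfl rfl
    refine ⟨G, f, hG, hf, hc, fun c r nb _ hnb hs => ?_⟩
    have h1 := hd c nb hnb d hs (Finset.univ \ {⟨0, g0⟩, ⟨1, g1⟩, ⟨2, g2⟩}) (by
      intro v hv
      simpa using hv)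
    have h2 : n - 3 ≤ (Finset.univ \ {⟨0, g0⟩, ⟨1, g1⟩, ⟨2, g2⟩} : Finset (Fin n)).card := by
      refine le_trans ?_ (Finset.le_card_sdiff _ _)
      rw [Finset.card_univ, Fintype.card_fin]
      have : ({⟨0, g0⟩, ⟨1, g1⟩, ⟨2, g2⟩} : Finset (Fin n)).card ≤ 3 :=
        Finset.card_le_three
      omega
    omega
  · obtain ⟨G, f, hG, hf, hc, hd⟩ := construct (V := ℕ) id
      Function.injective_id 0 1 2 rfl rfl rfl
    refine ⟨G, f, fun d => ⟨hG, hf, hc, fun c r nb _ hnb hs => ?_⟩⟩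
    have h1 := hd c nb hnb d hs (Finset.Ico 3 (5 ^ (d + 1) + 4)) (by
      intro v hv
      rw [Finset.mem_Ico] at hv
      omega)
    rw [Nat.card_Ico] at h1
    omega

end Pool.Agent.Results.MP_ffcab7_co.EveryDimension
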